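import Pool.Agent.R508.UI.Stm

set_option autoImplicit false

namespace Pool.Agent.R508.UI

open MvPowerSeries

namespace LBAux

/-- index of an ideal -/
noncomputable def ix {A : Type*} [CommRing A] (I : Ideal A) : ℕ :=
  (Submodule.toAddSubgroup I).index

theorem ix_step {A : Type*} [CommRing A] (H L : Ideal A) (w : A) (h : ∀ x ∈ L, w * x ∈ H)
    (hL : ix L ≠ 0) : ix H ≤ ix L * ix (Ideal.span {w} ⊔ H) := by
  let f : A →+ A := AddMonoidHom.mulLeft w
  have hr : f.range = Submodule.toAddSubgroup (Ideal.span {w}) := by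
    ext y
    simp only [AddMonoidHom.mem_range, Submodule.mem_toAddSubgroup, Ideal.mem_span_singleton']
    constructor
    · rintro ⟨x, hx⟩
      exact ⟨x, by rw [← hx]; simp [f, mul_comm]⟩
    · rintro ⟨x, hx⟩
      exact ⟨x, by rw [← hx]; simp [f, mul_comm]⟩
  have h1 : Submodule.toAddSubgroup H ≤ Submodule.toAddSubgroup (Ideal.span {w} ⊔ H) := by
    intro x hx
    exact (le_sup_right : H ≤ _) hx
  have h2 := AddSubgroup.relIndex_mul_index h1
  have h3 : (Submodule.toAddSubgroup H).relIndex (Submodule.toAddSubgroup (Ideal.span {w} ⊔ H)) =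
      ((Submodule.toAddSubgroup H).comap f).index := by
    rw [AddSubgroup.index_comap, hr, Submodule.sup_toAddSubgroup, AddSubgroup.relIndex_sup_right]
  have h4 : Submodule.toAddSubgroup L ≤ (Submodule.toAddSubgroup H).comap f := by
    intro x hx
    exact h x hx
  have h5 : ((Submodule.toAddSubgroup H).comap f).index ≤ ix L :=
    Nat.le_of_dvd (Nat.pos_of_ne_zero hL) (AddSubgroup.index_dvd_of_le h4)
  unfold ix
  rw [← h2, h3]
  exact Nat.mul_le_mul_right _ h5

theorem ix_anti {A : Type*} [CommRing A] (H L : Ideal A) (h : H ≤ L) (hH : ix H ≠ 0) :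
    ix L ≤ ix H ∧ ix L ≠ 0 := by
  have h1 : Submodule.toAddSubgroup H ≤ Submodule.toAddSubgroup L := h
  have h2 := AddSubgroup.index_dvd_of_le h1
  refine ⟨Nat.le_of_dvd (Nat.pos_of_ne_zero hH) h2, ?_⟩
  intro h3
  apply hH
  unfold ix at h3 ⊢
  rw [h3] at h2
  exact Nat.eq_zero_of_zero_dvd h2

/-- monomials in the first `M + 1` variables of degree less than `k` -/
def DD (M k : ℕ) : Set (ℕ →₀ ℕ) := {m | (∀ i ∈ m.support, i < M + 1) ∧ m.degree < k}

theorem DD_finite (M k : ℕ) : (DD M k).Finite := by
  classical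
  let b : ℕ →₀ ℕ := ∑ i ∈ Finset.range (M + 1), Finsupp.single i k
  refine (Set.finite_Iic b).subset ?_
  rintro m ⟨h1, h2⟩ i
  by_cases hi : i < M + 1
  · have hb : b i = k := by
      simp only [b, Finsupp.finsetSum_apply, Finsupp.single_apply]
      rw [Finset.sum_ite_eq']
      simp [hi]
    rw [hb]
    by_cases hm : i ∈ m.support
    · have : m i ≤ m.degree := Finset.single_le_sum (f := fun j => m j) (fun _ _ => Nat.zero_le _) hm
      omega
    · rw [Finsupp.notMem_support_iff] at hm
      omega
  · have : m i = 0 := by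
      by_contra hne
      exact hi (h1 i (Finsupp.mem_support_iff.2 hne))
    omega

/-- the filtration -/
noncomputable def IK (p M k : ℕ) : Ideal (R p) where
  carrier := {f | ∀ m ∈ DD M k, coeff m f = 0}
  add_mem' := by
    intro a b ha hb m hm
    rw [map_add, ha m hm, hb m hm, add_zero]
  zero_mem' := by
    intro m _
    exact map_zero _
  smul_mem' := by
    intro c x hx m hm
    rw [smul_eq_mul, coeff_mul]
    refine Finset.sum_eq_zero fun ab hab => ?_
    have h : ab.1 + ab.2 = m := Finset.HasAntidiagonal.mem_antidiagonal.mp hab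
    rw [hx ab.2 ⟨fun i hi => hm.1 i ?_, ?_⟩, mul_zero]
    · have h2 := hm.2
      rw [← h, map_add] at h2
      omega
    · rw [← h]
      rw [Finsupp.mem_support_iff] at hi ⊢
      rw [Finsupp.add_apply]
      omega

theorem Z_le (p M k : ℕ) : Z p (M + 1) ≤ IK p M k := by
  intro f hf m hm
  exact hf m hm.1

theorem mul_IK (p M k : ℕ) (w : R p) (hw : w ∈ mI p) (x : R p) (hx : x ∈ IK p M k) :
    w * x ∈ IK p M (k + 1) := by
  intro m hm
  rw [coeff_mul]
  refine Finset.sum_eq_zero fun ab hab => ?_
  have h : ab.1 + ab.2 = m := Finset.HasAntidiagonal.mem_antidiagonal.mp hab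
  by_cases h0 : ab.1 = 0
  · have : coeff ab.1 w = 0 := by
      rw [h0]
      exact hw
    rw [this, zero_mul]
  · have hd : 0 < ab.1.degree := by
      rw [Nat.pos_iff_ne_zero]
      intro h1
      exact h0 ((Finsupp.degree_eq_zero_iff _).1 h1)
    rw [hx ab.2 ⟨fun i hi => hm.1 i ?_, ?_⟩, mul_zero]
    · have h2 := hm.2
      rw [← h, map_add] at h2
      omega
    · rw [← h]
      rw [Finsupp.mem_support_iff] at hi ⊢
      rw [Finsupp.add_apply]
      omega

theorem ix_IK (p : ℕ) [Fact p.Prime] (M k : ℕ) : ix (IK p M k) = p ^ Nat.card (DD M k) := by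
  classical
  haveI : Finite (DD M k) := (DD_finite M k).to_subtype
  let ρ : R p →+ (DD M k → ZMod p) :=
    { toFun := fun f m => coeff (m : ℕ →₀ ℕ) f
      map_zero' := by funext m; simp
      map_add' := by intro f g; funext m; simp }
  have hk : Submodule.toAddSubgroup (IK p M k) = ρ.ker := by
    ext f
    rw [AddMonoidHom.mem_ker, Submodule.mem_toAddSubgroup]
    constructor
    · intro hf
      funext m
      exact hf m m.2
    · intro hf m hm
      exact congrFun hf ⟨m, hm⟩
  have hs : Function.Surjective ρ := by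
    intro c
    refine ⟨(fun m => if h : m ∈ DD M k then c ⟨m, h⟩ else 0 : (ℕ →₀ ℕ) → ZMod p), ?_⟩
    funext m
    change (if h : (m : ℕ →₀ ℕ) ∈ DD M k then c ⟨m, h⟩ else 0) = c m
    rw [dif_pos m.2]
  unfold ix
  rw [hk, AddSubgroup.index_ker, AddMonoidHom.range_eq_top.2 hs]
  rw [AddSubgroup.card_top, Nat.card_fun, Nat.card_zmod]

theorem card_DD (M K : ℕ) (hK : 0 < K) : K ^ (M + 1) ≤ Nat.card (DD M ((M + 1) * K)) := by
  classical
  haveI : Finite (DD M ((M + 1) * K)) := (DD_finite M _).to_subtype
  let φ : (Fin (M + 1) → Fin K) → (ℕ →₀ ℕ) := fun u =>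
    Finsupp.onFinset (Finset.range (M + 1)) (fun i => if h : i < M + 1 then (u ⟨i, h⟩ : ℕ) else 0)
      (by
        intro i hi
        by_contra hne
        rw [Finset.mem_range] at hne
        apply hi
        rw [dif_neg hne])
  have hφ : ∀ u (i : Fin (M + 1)), φ u i = u i := by
    intro u i
    change (if h : (i : ℕ) < M + 1 then (u ⟨i, h⟩ : ℕ) else 0) = u i
    rw [dif_pos i.2]
  have hmem : ∀ u, φ u ∈ DD M ((M + 1) * K) := by
    intro u
    have hsub : (φ u).support ⊆ Finset.range (M + 1) := Finsupp.support_onFinset_subset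
    refine ⟨fun i hi => Finset.mem_range.1 (hsub hi), ?_⟩
    have h1 : (φ u).degree ≤ ∑ i ∈ Finset.range (M + 1), (K - 1) := by
      refine (Finset.sum_le_sum_of_subset hsub).trans (Finset.sum_le_sum fun i hi => ?_)
      have hi' := Finset.mem_range.1 hi
      have := hφ u ⟨i, hi'⟩
      simp only at this
      rw [this]
      have := (u ⟨i, hi'⟩).2
      omega
    rw [Finset.sum_const, Finset.card_range, smul_eq_mul] at h1
    have h2 : (M + 1) * (K - 1) < (M + 1) * K := by
      apply Nat.mul_lt_mul_of_pos_left _ (by omega)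
      omega
    omega
  have hinj : Function.Injective (fun u => (⟨φ u, hmem u⟩ : DD M ((M + 1) * K))) := by
    intro u u' h
    have h1 : φ u = φ u' := congrArg Subtype.val h
    funext i
    apply Fin.ext
    rw [← hφ u i, ← hφ u' i, h1]
  have := Nat.card_le_card_of_injective _ hinj
  rwa [Nat.card_fun, Nat.card_fin, Nat.card_fin] at this

end LBAux

open LBAux

theorem lb : StmLB := by
  classical
  intro p _ M w hw hfin
  have hp : 2 ≤ p := (Fact.out : p.Prime).two_le
  let q : ℕ := ix (Ideal.span (Set.range w) ⊔ Z p (M + 1))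
  have hq : q ≠ 0 := by
    haveI : Finite (R p ⧸ Submodule.toAddSubgroup (Ideal.span (Set.range w) ⊔ Z p (M + 1))) := hfin
    exact AddSubgroup.index_ne_zero_of_finite
  have hIK : ∀ k, ix (IK p M k) ≠ 0 := by
    intro k
    rw [ix_IK]
    positivity
  -- the main induction
  have key : ∀ (j : ℕ) (S : Finset (Fin M)), (Finset.univ \ S).card = j → ∀ k : ℕ,
      ix (Ideal.span (w '' (S : Set (Fin M))) ⊔ IK p M k) ≤ q ^ (k ^ j) := by
    intro j
    induction j with
    | zero =>
      intro S hS k
      have hS' : S = Finset.univ := by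
        rw [Finset.card_eq_zero, Finset.sdiff_eq_empty_iff_subset] at hS
        exact Finset.univ_subset_iff.1 hS
      rw [hS', Finset.coe_univ, Set.image_univ, pow_zero, pow_one]
      refine (ix_anti _ _ ?_ hq).1
      exact sup_le_sup_left (Z_le p M k) _
    | succ j ih =>
      intro S hS k
      have hne : (Finset.univ \ S).Nonempty := by
        rw [← Finset.card_pos, hS]; omega
      obtain ⟨i, hi⟩ := hne
      have hiS : i ∉ S := (Finset.mem_sdiff.1 hi).2
      have hcard : (Finset.univ \ insert i S).card = j := by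
        rw [Finset.sdiff_insert, Finset.card_erase_of_mem hi, hS]
        rfl
      induction k with
      | zero =>
        have h0 : Ideal.span (w '' (S : Set (Fin M))) ⊔ IK p M 0 = ⊤ := by
          have : IK p M 0 = ⊤ := by
            rw [Ideal.eq_top_iff_one]
            intro m hm
            exact absurd hm.2 (Nat.not_lt_zero _)
          rw [this, sup_top_eq]
        rw [h0]
        have : ix (⊤ : Ideal (R p)) = 1 := by
          unfold ix
          rw [Submodule.top_toAddSubgroup, AddSubgroup.index_top]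
        rw [this]
        exact Nat.one_le_pow _ _ (Nat.pos_of_ne_zero hq)
      | succ k ihk =>
        have hst := ix_step (Ideal.span (w '' (S : Set (Fin M))) ⊔ IK p M (k + 1))
          (Ideal.span (w '' (S : Set (Fin M))) ⊔ IK p M k) (w i) (by
            intro x hx
            obtain ⟨y, hy, z, hz, rfl⟩ := Submodule.mem_sup.1 hx
            rw [mul_add]
            exact Submodule.add_mem_sup (Ideal.mul_mem_left _ _ hy) (mul_IK p M k _ (hw i) z hz))
          (ix_anti _ _ le_sup_right (hIK k)).2
        have hS' : Ideal.span {w i} ⊔ (Ideal.span (w '' (S : Set (Fin M))) ⊔ IK p M (k + 1)) =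
            Ideal.span (w '' ((insert i S : Finset (Fin M)) : Set (Fin M))) ⊔ IK p M (k + 1) := by
          rw [Finset.coe_insert, Set.image_insert_eq, Ideal.span_insert, sup_assoc]
        rw [hS'] at hst
        refine hst.trans ((Nat.mul_le_mul ihk (ih _ hcard (k + 1))).trans ?_)
        rw [← pow_add]
        apply Nat.pow_le_pow_right (Nat.pos_of_ne_zero hq)
        have h1 : k ^ (j + 1) ≤ k * (k + 1) ^ j := by
          rw [pow_succ, mul_comm]
          exact Nat.mul_le_mul_left _ (Nat.pow_le_pow_left (Nat.le_succ k) j)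
        have h2 : (k + 1) ^ (j + 1) = k * (k + 1) ^ j + (k + 1) ^ j := by
          rw [pow_succ]; ring
        omega
  -- conclusion
  let K : ℕ := q * (M + 1) ^ M + 1
  have h1 := key M ∅ (by simp) ((M + 1) * K)
  rw [Finset.coe_empty, Set.image_empty, Ideal.span_empty, bot_sup_eq, ix_IK] at h1
  have h2 : 2 ^ (K ^ (M + 1)) ≤ 2 ^ (q * ((M + 1) * K) ^ M) := by
    calc 2 ^ (K ^ (M + 1)) ≤ p ^ (K ^ (M + 1)) := Nat.pow_le_pow_left hp _
      _ ≤ p ^ Nat.card (DD M ((M + 1) * K)) :=
          Nat.pow_le_pow_right (by omega) (card_DD M K (Nat.succ_pos _))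
      _ ≤ q ^ (((M + 1) * K) ^ M) := h1
      _ ≤ (2 ^ q) ^ (((M + 1) * K) ^ M) := Nat.pow_le_pow_left Nat.lt_two_pow_self.le _
      _ = 2 ^ (q * ((M + 1) * K) ^ M) := by rw [← pow_mul]
  have h3 : K ^ (M + 1) ≤ q * ((M + 1) * K) ^ M := (Nat.pow_le_pow_iff_right (by norm_num)).1 h2
  have h4 : q * ((M + 1) * K) ^ M = (q * (M + 1) ^ M) * K ^ M := by rw [mul_pow]; ring
  rw [h4, pow_succ, mul_comm (K ^ M) K] at h3
  have h5 : 0 < K ^ M := pow_pos (Nat.succ_pos _) _
  have h6 := Nat.le_of_mul_le_mul_right h3 h5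
  have h7 : K = q * (M + 1) ^ M + 1 := rfl
  omega

end Pool.Agent.R508.UI
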